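import Pool.Agent.Helper94.KC.Defs

/-!
# Project ML (MP_bf413e_co): Meyniel's theorem for MacLane graphs.  Definitions

A finite graph is a MacLane graph if its mod 2 cycle space is spanned by a family of even sets of
edges such that every edge is in at most two members.  (By MacLane's theorem these are the planar
graphs; we never use planarity.)  All graphs live on a fixed finite vertex type `V`; deleted vertices
are isolated vertices.
-/

set_option autoImplicit false

namespace Pool.Agent.Helper30.ML

open scoped Classical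
open Finset
open Pool.Agent.Helper94.KC (Proper InChain KStep KEq AllEq dR QG Even2)

/-- the edges of a graph, as two-element sets -/
noncomputable def eG {V : Type} [Fintype V] (G : SimpleGraph V) : Finset (Finset V) :=
  univ.filter (fun e => ∃ u v, G.Adj u v ∧ e = {u, v})

/-- a MacLane family: even sets of edges, every edge in at most two of them, spanning the mod 2
cycle space -/
structure MacFam {V : Type} [Fintype V] (G : SimpleGraph V) (m : ℕ)
    (f : Fin m → Finset (Finset V)) : Prop where
  sub : ∀ i, f i ⊆ eG G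
  even : ∀ i, Even2 (f i)
  two : ∀ e, (univ.filter (fun i => e ∈ f i)).card ≤ 2
  span : ∀ z ⊆ eG G, Even2 z →
    ∃ J : Finset (Fin m), ∀ e, e ∈ z ↔ Odd (J.filter (fun i => e ∈ f i)).card

/-- MacLane graphs -/
def Mac {V : Type} [Fintype V] (G : SimpleGraph V) : Prop :=
  ∃ (m : ℕ) (f : Fin m → Finset (Finset V)), MacFam G m f

/-- deletion of a vertex (it becomes isolated) -/
def del {V : Type} (G : SimpleGraph V) (v : V) : SimpleGraph V where
  Adj a b := G.Adj a b ∧ a ≠ v ∧ b ≠ v
  symm := ⟨fun _ _ h => ⟨h.1.symm, h.2.2, h.2.1⟩⟩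
  loopless := ⟨fun _ h => h.1.ne rfl⟩

/-- the edges inside a set of vertices -/
def rs {V : Type} (G : SimpleGraph V) (A : Set V) : SimpleGraph V where
  Adj a b := G.Adj a b ∧ a ∈ A ∧ b ∈ A
  symm := ⟨fun _ _ h => ⟨h.1.symm, h.2.2, h.2.1⟩⟩
  loopless := ⟨fun _ h => h.1.ne rfl⟩

/-- addition of an edge -/
def adE {V : Type} (G : SimpleGraph V) (x y : V) : SimpleGraph V where
  Adj a b := G.Adj a b ∨ (x ≠ y ∧ ((a = x ∧ b = y) ∨ (a = y ∧ b = x)))
  symm := ⟨by
    rintro a b (h | ⟨h, h1 | h1⟩)
    · exact Or.inl h.symm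
    · exact Or.inr ⟨h, Or.inr ⟨h1.2, h1.1⟩⟩
    · exact Or.inr ⟨h, Or.inl ⟨h1.2, h1.1⟩⟩⟩
  loopless := ⟨by
    rintro a (h | ⟨h, h1 | h1⟩)
    · exact h.ne rfl
    · exact h (h1.1.symm.trans h1.2)
    · exact h (h1.2.symm.trans h1.1)⟩

/-- the map which identifies `y` with `x` -/
noncomputable def cr {V : Type} (x y : V) : V → V := fun v => if v = y then x else v

/-- the number of vertices which are not isolated -/
noncomputable def ni {V : Type} [Fintype V] (G : SimpleGraph V) : ℕ :=
  (univ.filter (fun x => ∃ y, G.Adj x y)).card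

/-- a connected set of vertices -/
def ConS {V : Type} (G : SimpleGraph V) (A : Set V) : Prop :=
  A.Nonempty ∧ ∀ u ∈ A, ∀ v ∈ A, (rs G A).Reachable u v

/-- no crossing chords: `w 0, .., w 4` are neighbours of `v` in cyclic order -/
def NoX {V : Type} (G : SimpleGraph V) (v : V) (w : Fin 5 → V) : Prop :=
  ∀ (i : Fin 5) (A B : Set V), v ∉ A → v ∉ B → Disjoint A B → ConS G A → ConS G B →
    w i ∈ A → w (i + 2) ∈ A → w (i + 1) ∈ B → w (i + 3) ∈ B → False

/-- exchange of the colours `a`, `b` on the Kempe chain of `x` -/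
noncomputable def sw {V : Type} (G : SimpleGraph V) (f : V → Fin 5) (a b : Fin 5) (x : V) :
    V → Fin 5 := fun y => if InChain G f a b x y then Equiv.swap a b (f y) else f y

end Pool.Agent.Helper30.ML
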