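import Pool.Agent.Helper30.ML.Defs
import Pool.Agent.Helper94.KC.Goals

/-!
# Project ML (MP_bf413e_co): Meyniel's theorem for MacLane graphs.  Statements of the packets,
with proofs

Main result `StmtMEY`: all 5-colourings of a MacLane graph are Kempe equivalent.
Every packet is `theorem pXX : StmtXX`, or with the packets named in its docstring as hypotheses
(`theorem pXX : StmtAA → StmtBB → StmtXX`).
-/

set_option autoImplicit false

namespace Pool.Agent.Helper30.ML

open scoped Classical
open Finset
open Pool.Agent.Helper94.KC (Proper InChain KStep KEq AllEq dR QG Even2 StmtUN StmtKL)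

/-! ### Kempe changes -/

/-- PACKET KB (basic facts on Kempe changes; may assume StmtUN of KC).
Proof.  (1) If `u, v` are adjacent, `f u ≠ f v`, and `g u = g v`, then one of the colours was changed,
say that of `u` is in the chain, so `f u ∈ {a, b}`, `g u` is the other colour of `{a, b}`; if `v` is in the
chain too, then `g u ≠ g v` (`swap` is injective); if `v` is not in the chain then `f v ∉ {a, b}` (else `v` is
adjacent to `u` in the induced graph, so in the chain), but `g v = f v`.  (2) The same chain, with the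
same colours: the set `{v | f v = a ∨ f v = b}` is the same for `g`, because `swap` maps `{a, b}` to
itself.  (3) `KEq` is the reflexive transitive closure of a symmetric relation.  (4) One step of `G'`
at the chain `C`: `C` satisfies the hypothesis of UN in `G ≤ G'`.  (5) by definition.  (6) `v` has the
colour `a`, no neighbour of `v` has the colour `a` or `b`, so its chain is `{v}`. -/
def StmtKB : Prop :=
  (∀ (V : Type) (G : SimpleGraph V) (f g : V → Fin 5), KEq G f g → Proper G f → Proper G g) ∧
  (∀ (V : Type) (G : SimpleGraph V) (f g : V → Fin 5), KStep G f g → KStep G g f) ∧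
  (∀ (V : Type) (G : SimpleGraph V) (f g : V → Fin 5), KEq G f g → KEq G g f) ∧
  (∀ (V : Type) [Fintype V] (G G' : SimpleGraph V) (f g : V → Fin 5), G ≤ G' → KEq G' f g →
    KEq G f g) ∧
  (∀ (V : Type) (G : SimpleGraph V) (f : V → Fin 5) (a b : Fin 5) (x : V),
    (f x = a ∨ f x = b) → KEq G f (sw G f a b x) ∧ (∀ y, InChain G f a b x y → (f y = a ∨ f y = b)) ∧
      ConS G {y | InChain G f a b x y} ∧ InChain G f a b x x) ∧
  (∀ (V : Type) (G : SimpleGraph V) (f : V → Fin 5) (b : Fin 5) (v : V), Proper G f →
    (∀ y, G.Adj v y → f y ≠ b) → KEq G f (Function.update f v b))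

/-- PACKET D4 (Las Vergnas and Meyniel, one vertex of degree at most 4; may assume StmtUN, StmtKB).
Proof.  Let `f, g` be proper for `G`; they are proper for `G' = del G v`, so there is a sequence
`f = f_0, f_1, .., f_m = g` of Kempe changes in `G'`.  We construct `F_i`, equivalent to `f` in `G` (so
proper for `G`), and equal to `f_i` outside `v`; `F_0 = f`.  Step from `f_i` to `f_{i+1}` with chain `C` of
`x`, colours `a, b` (in `G'`).  If `v ∈ C` then `C = {v}` (`v` is isolated in `G'`) and `F_{i+1} = F_i`.
Let `v ∉ C`.  (1) If `F_i v ≠ a, b`, then `C` is closed in `G` for `F_i` (a neighbour of a vertex of `C`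
with a colour in `{a, b}` is not `v`), so UN for `S = C`.  (2) If `F_i v ∈ {a, b}` and at most one
neighbour of `v` has a colour in `{a, b}`: apply UN to `S = C` if this neighbour is not in `C` (or
does not exist), and to `S = C ∪ {v}` if it is in `C`; `S` is closed.  The result is `f_{i+1}` outside
`v`.  (3) Otherwise two of the at most 4 neighbours have the same colour (the colour in `{a, b}`
different from `F_i v`), so the neighbours of `v` and `v` use at most 4 colours, and there is a colour
`e`, not in `{a, b}`, which is not used; change the colour of `v` to `e` (KB (6)) and go to (1).  At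
the end change the colour of `v` from `F_m v` to `g v` (KB (6): `F_m = g` outside `v`, and `g` is
proper). -/
def StmtD4 : Prop := ∀ (V : Type) [Fintype V] (G : SimpleGraph V) (v : V),
  dR G univ v ≤ 4 → AllEq (del G v) → AllEq G

/-- PACKET CV (a cut vertex; may assume StmtUN, StmtKB).  `v ∉ A`, all the edges from `A` to the
outside go to `v`.
Proof.  Let `G₁ = rs G (insert v A)`, `G₂ = rs G Aᶜ` (`v ∈ Aᶜ`), `f, g` proper for `G`.
(1) Let `f = f_0, .., f_m = g` be a sequence in `G₁`.  We construct `F_i` with `KEq G f F_i` and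
`F_i = f_i` on `insert v A`.  Step with the chain `C` of `x`, colours `a, b`.  If `x ∉ insert v A` then
`C = {x}` and nothing is to do.  Otherwise let `D` be the chain of `x` in `G` for `F_i`.  Then
`D ∩ insert v A = C`: a walk in `G` inside the colours `a, b` between two points of `insert v A` can be
replaced by one inside `insert v A` (it leaves this set only through `v` and comes back through `v`);
e.g. by induction along the walk from `x`: every vertex of it which is in `insert v A` is in `C`, and
if it is not in `insert v A` then `v ∈ C`.  `F_{i+1} = sw` at `D`.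
(2) So there is `F` with `KEq G f F` and `F = g` on `insert v A`.  Let `F = h_0, .., h_m = g` be a
sequence in `G₂`.  We construct `H_i` and permutations `s_i` of the colours with `KEq G F H_i`,
`H_i = h_i` on `Aᶜ`, and `H_i = s_i ∘ g` on `insert v A`.  Step with the chain `C` of `x`, colours `a, b`: if
`x ∈ A` then `C = {x}`, nothing is to do.  Let `x ∉ A`, so `C ⊆ Aᶜ`.  If `v ∉ C`, then UN for `S = C`.  If
`v ∈ C`, then UN for `S = C ∪ {y ∈ A | H_i y ∈ {a, b}}`, `s_{i+1} = swap a b * s_i` (all vertices of
`insert v A` with colours `a, b` are changed).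
(3) So there are `H` with `KEq G f H` and a permutation `s` with `H = g` on `Aᶜ`, `H = s ∘ g` on
`insert v A`, hence `s (g v) = g v`.  Induction on the number of colours moved by `s`: if `s ≠ 1` take
`b` with `s b ≠ b`; `b, s b ≠ g v`; exchange the colours `s b`, `b` on `{y ∈ A | H y ∈ {b, s b}}` (UN;
this set is closed, as `v` does not have one of these colours); `swap b (s b) * s` fixes `b` and all
fixed points of `s`. -/
def StmtCV : Prop := ∀ (V : Type) [Fintype V] (G : SimpleGraph V) (v : V) (A : Set V), v ∉ A →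
  (∀ x ∈ A, ∀ y, y ∉ A → G.Adj x y → y = v) → AllEq (rs G (insert v A)) → AllEq (rs G Aᶜ) → AllEq G

/-- PACKET KP (colourings with `f p = f q`; may assume StmtKL of KC).
Proof.  Let `r = cr p q`.  `f ∘ r = f` because `f p = f q`, and `f` is proper for `QG G r` (if `G.Adj u u'`,
then `f (r u) = f u ≠ f u' = f (r u')`).  The same for `g`.  So `KEq (QG G r) f g`, and KL gives
`KEq G (f ∘ r) (g ∘ r)`. -/
def StmtKP : Prop := ∀ (V : Type) [Fintype V] (G : SimpleGraph V) (p q : V),
  AllEq (QG G (cr p q)) → ∀ f g : V → Fin 5, Proper G f → Proper G g → f p = f q → g p = g q →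
  KEq G f g

/-- PACKET KX (colourings with `f x = f y`, `x, y` neighbours of a vertex `v` of degree at most 5; may
assume StmtD4, StmtKP).
Proof.  In `G' = QG G (cr x y)` the neighbours of `v` are the images of the neighbours of `v` in `G`
(the only preimage of `v` is `v`, because `v ≠ x, y`); `x` and `y` have the same image, so there are
at most 4.  By D4 `AllEq G'`.  Apply KP. -/
def StmtKX : Prop := ∀ (V : Type) [Fintype V] (G : SimpleGraph V) (v x y : V),
  dR G univ v ≤ 5 → x ≠ y → G.Adj v x → G.Adj v y → AllEq (del (QG G (cr x y)) v) →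
  ∀ f g : V → Fin 5, Proper G f → Proper G g → f x = f y → g x = g y → KEq G f g

/-! ### MacLane graphs -/

/-- PACKET SU (subgraphs of MacLane graphs).
Proof.  It is enough to delete one edge `e₀` (induction on the number of edges of `G` which are not
in `H`; a graph with one edge less is again of the form `SimpleGraph`).  Let `f` be a MacLane family
of `G`.  The even sets of `G - e₀` are the even sets `z ⊆ eG G` with `e₀ ∉ z`; for `z` given by `J`,
`e₀ ∈ z` iff an odd number of the `i ∈ J` have `e₀ ∈ f i`.  Case 0: `e₀` is in no `f i`: the same family.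
Case 1: `e₀` is in exactly one `f i₀`: replace `f i₀` by `∅`; for `z` with `e₀ ∉ z` we have `i₀ ∉ J`.
Case 2: `e₀ ∈ f i₀, f i₁`, `i₀ ≠ i₁` (exactly these two): replace `f i₀` by `symmDiff (f i₀) (f i₁)` and
`f i₁` by `∅`; for `z` with `e₀ ∉ z` the set `J` contains both or none of `i₀, i₁`.  An edge is in
`symmDiff (f i₀) (f i₁)` iff it is in exactly one of `f i₀, f i₁`, so it is in at most two members of
the new family, and the symmetric difference of even sets is even. -/
def StmtSU : Prop := ∀ (V : Type) [Fintype V] (G H : SimpleGraph V), H ≤ G → Mac G → Mac H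

/-- PACKET CT (contraction of an edge; may assume StmtSU).
Proof.  Let `G₁` be `G` without the edges `{q, u}`, `u` a common neighbour of `p` and `q`; it is a
MacLane graph by SU, `G₁.Adj p q`, and `QG G₁ (cr p q) = QG G (cr p q) =: G'` (the edge `{q, u}` has the
same image as `{p, u}`).  In `G₁` the vertices `p, q` have no common neighbour, so `e ↦ e.image (cr p q)`
is a bijection from `eG G₁ \ {{p, q}}` to `eG G'`.  Let `f` be a MacLane family of `G₁`;
`f' i = ((f i).erase {p, q}).image (fun e => e.image (cr p q))`.  `f' i` is even: at `u ≠ p, q` it has as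
many edges as `f i`; at `p` it has as many as `f i` has at `p` plus at `q`, minus 2 if `{p, q} ∈ f i`; at
`q` none.  An edge of `G'` is in as many `f' i` as its preimage in `f i`, so in at most two.  Let
`z' ⊆ eG G'` be even and `z ⊆ eG G₁ \ {{p, q}}` its preimage; `z` is even at all `u ≠ p, q`, and the
numbers of its edges at `p` and at `q` have even sum; if they are odd, add `{p, q}` to `z`.  Now `z` is
even; `J` for `z` is also good for `z'`. -/
def StmtCT : Prop := ∀ (V : Type) [Fintype V] (G : SimpleGraph V) (p q : V),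
  Mac G → G.Adj p q → Mac (QG G (cr p q))

/-- PACKET RB (rank count).
Proof.  Linear algebra over `ZMod 2`.  Let `E = eG G`, `N` the set of the vertices which are not
isolated (nonempty).  The map `(E → ZMod 2) → (N → ZMod 2)`, `z ↦ (x ↦ ∑_{e ∋ x} z e)`, has its image in
the subspace of the `h` with `∑ h = 0` (every edge has two ends, both in `N`), which has dimension
`#N - 1` (it is a proper subspace).  So its kernel `Z` (the even sets) has dimension at least
`#E - #N + 1`.  By `span`, `Z` is contained in (and equal to) the span of the indicator functions of the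
`f i`.  A spanning family contains a basis (`exists_linearIndependent'` or
`Submodule.exists_finset..`): there is `I` such that `(f i)`, `i ∈ I`, is linearly independent, and spans
the same space, so `#I = dim ≥ #E - #N + 1`.  Independence: if for `J ⊆ I` all edges are in an even
number of the `f i`, `i ∈ J`, then `∑_{i ∈ J} f i = 0`, so `J = ∅`. -/
def StmtRB : Prop := ∀ (V : Type) [Fintype V] (G : SimpleGraph V) (m : ℕ)
  (f : Fin m → Finset (Finset V)), MacFam G m f → (∃ a b, G.Adj a b) →
  ∃ I : Finset (Fin m), (eG G).card + 1 ≤ ni G + I.card ∧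
    ∀ J ⊆ I, (∀ e, Even (J.filter (fun i => e ∈ f i)).card) → J = ∅

/-- PACKET RC (counting faces).
Proof.  (1) A nonempty even set `z` of edges of a simple graph has at least 3 elements: let
`{a, b} ∈ z`, `a ≠ b`; `a` is in another edge `{a, c} ∈ z`, `c ≠ b`, and `b` is in another edge
`{b, d} ∈ z`, `d ≠ a`; these three are different.  (2) `f i ≠ ∅` for `i ∈ I` (`J = {i}`), so `#(f i) ≥ 3`.
Let `S = {e ∈ eG G | Odd #{i ∈ I | e ∈ f i}}`; it is even (parity count at each vertex), and nonempty
(`J = I ≠ ∅`), so `#S ≥ 3`.  For `e ∈ eG G` let `c = #{i ∈ I | e ∈ f i} ≤ 2`; `c + [c odd] ≤ 2`.  Summing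
over `e`: `∑_{i ∈ I} #(f i) + #S ≤ 2 #(eG G)`. -/
def StmtRC : Prop := ∀ (V : Type) [Fintype V] (G : SimpleGraph V) (m : ℕ)
  (f : Fin m → Finset (Finset V)) (I : Finset (Fin m)), MacFam G m f → I.Nonempty →
  (∀ J ⊆ I, (∀ e, Even (J.filter (fun i => e ∈ f i)).card) → J = ∅) →
  3 * (I.card + 1) ≤ 2 * (eG G).card

/-- PACKET SD (edges, a vertex of small degree, no `K₅`; may assume StmtRB, StmtRC, StmtSU).
Proof.  (1) RB gives `I`.  If `I = ∅`: `#E + 1 ≤ ni G`, and `ni G + 5 ≤ 3 ni G`.  If `I ≠ ∅`, RC:
`3 (#E + 1 - ni G + 1) ≤ 2 #E`.  (2) `2 #E = ∑` of the degrees of the `ni G` vertices which are not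
isolated.  If all of them were `≥ 6`, then `ni G ≥ 7` and `#E ≥ 3 ni G`, contradicting (1).  (3) The
complete graph on the five vertices `w i` (all other vertices isolated) is a subgraph, so it is a
MacLane graph, with `#E = 10`, `ni = 5`: contradiction to (1). -/
def StmtSD : Prop :=
  (∀ (V : Type) [Fintype V] (G : SimpleGraph V), Mac G → 3 ≤ ni G →
    (eG G).card + 6 ≤ 3 * ni G) ∧
  (∀ (V : Type) [Fintype V] (G : SimpleGraph V), Mac G → (∃ a b, G.Adj a b) →
    ∃ x, 1 ≤ dR G univ x ∧ dR G univ x ≤ 5) ∧
  (∀ (V : Type) [Fintype V] (G : SimpleGraph V) (w : Fin 5 → V), Mac G →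
    ¬ ∀ i j, i ≠ j → G.Adj (w i) (w j))

/-- PACKET KM (no `K₅` minor; may assume StmtCT, StmtSD).
Proof.  Induction on `∑ #(B i)` (for all graphs on `V`).  If all `B i` have one element `w i`, SD (3).
Otherwise some `B i` has two elements; it is connected, so there are `p ≠ q` in `B i` with `G.Adj p q`.
Let `r = cr p q`, `G' = QG G r` (a MacLane graph by CT), `B' i = B i \ {q}`, `B' j = B j` for `j ≠ i`.
The `B' j` are nonempty, disjoint, and connected in `G'`: images under `r` of walks in `B j` (an edge
`u u'` inside `B j` is mapped to an edge of `G'` inside `B' j`, or `r u = r u'`), and `r` maps `B j` onto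
`B' j` (`q ∉ B j` for `j ≠ i`).  Adjacency is preserved too. -/
def StmtKM : Prop := ∀ (V : Type) [Fintype V] (G : SimpleGraph V) (B : Fin 5 → Finset V), Mac G →
  (∀ i j, i ≠ j → Disjoint (B i) (B j)) → (∀ i, ConS G (B i : Set V)) →
  (∀ i j, i ≠ j → ∃ x ∈ B i, ∃ y ∈ B j, G.Adj x y) → False

/-- PACKET NX (crossing lemma; may assume StmtKM).
Proof.  Write `w k = w (i + k)`; so WLOG `i = 0`, `v₁ = w 0, .., v₅ = w 4`, cyclically adjacent, all
adjacent to `v`; `v₁, v₃ ∈ A`, `v₂, v₄ ∈ B`.  `A₃ = {v₃}`, `A₁` = the set of the vertices reachable from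
`v₁` in `rs G (A \ {v₃})`: connected, and adjacent to `v₃` (a walk inside `A` from `v₁` to `v₃`: the
vertex before the first visit of `v₃` is in `A₁`).  Case 1: `v₅ ∈ A`.  `v₅ ∈ A₁` (adjacent to `v₁`).
`B₄ = {v₄}`, `B₂` = the set reachable from `v₂` in `rs G (B \ {v₄})`, adjacent to `v₄` as before.  The
five sets `{v}, A₁, A₃, B₂, B₄` are disjoint, connected and pairwise adjacent: `A₁ A₃`, `B₂ B₄` as said,
`A₁ B₂` (`v₁ v₂`), `A₃ B₂` (`v₃ v₂`), `A₃ B₄` (`v₃ v₄`), `A₁ B₄` (`v₅ v₄`).  Case 2: `v₅ ∉ A`.
`B₄ = {v₄, v₅}` (connected), `B₂` = the set reachable from `v₂` in `rs G (B \ {v₄, v₅})`, adjacent to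
`B₄` (a walk inside `B` from `v₂` to `v₄`, first visit of `B₄`).  `A₁ B₄` (`v₁ v₅`), the others as
before.  Contradiction to KM.  (Connectedness of `A₁`: a walk in `rs G (A \ {v₃})` from `v₁` stays in
the set of reachable vertices.) -/
def StmtNX : Prop := ∀ (V : Type) [Fintype V] (G : SimpleGraph V) (v : V) (w : Fin 5 → V), Mac G →
  Function.Injective w → (∀ i, G.Adj v (w i)) → (∀ i, G.Adj (w i) (w (i + 1))) → NoX G v w

/-! ### the link of a vertex of degree 5 -/

/-- PACKET LA (splitting a face).
Proof.  Let `t = {{v, x}, {v, y}, {x, y}}`, new family on `Fin (m + 1)`: `symmDiff (f i) t` in the place of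
`f i`, the other `f j`, and `t`.  `{v, x}` and `{v, y}` are in `f i` and `t`, not in `symmDiff (f i) t`, so
their counts do not change; `{x, y}` is not an edge of `G`, in no `f j`, so it is in exactly two new
members; for the other edges nothing changes.  Span: let `z` be an even set of the new graph.  If
`{x, y} ∉ z`, take `J` for `z`; if `i ∈ J` add the index of `t`.  If `{x, y} ∈ z`, apply this to
`symmDiff z t` and change the membership of the index of `t`. -/
def StmtLA : Prop := ∀ (V : Type) [Fintype V] (G : SimpleGraph V) (m : ℕ)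
  (f : Fin m → Finset (Finset V)) (i : Fin m) (v x y : V), MacFam G m f → x ≠ y →
  {v, x} ∈ f i → {v, y} ∈ f i → ¬ G.Adj x y → Mac (adE G x y)

/-- PACKET LB (adding a face).
Proof.  Let `t = {{v, x}, {v, y}, {x, y}}`, new family on `Fin (m + 1)`: the `f j`, and `t`.  The counts of
`{v, x}`, `{v, y}` are at most `1 + 1`, that of `{x, y}` is 1.  Span: if `{x, y} ∉ z`, `J` for `z`; if
`{x, y} ∈ z`, `J` for `symmDiff z t`, and the index of `t`. -/
def StmtLB : Prop := ∀ (V : Type) [Fintype V] (G : SimpleGraph V) (m : ℕ)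
  (f : Fin m → Finset (Finset V)) (v x y : V), MacFam G m f → x ≠ y → G.Adj v x → G.Adj v y →
  ¬ G.Adj x y → (univ.filter (fun i => {v, x} ∈ f i)).card ≤ 1 →
  (univ.filter (fun i => {v, y} ∈ f i)).card ≤ 1 → Mac (adE G x y)

/-- PACKET LC (the link is connected).
Proof.  Take a path from `x` to `y` in `del G v` and let `z` be the set of its edges, together with
`{v, x}` and `{v, y}`: an even set of edges of `G` (the cycle).  The only element of `z` of the form
`{v, c}`, `c ∈ C`, is `{v, x}` (the edges of the path do not contain `v`; `y ∉ C`).  Let `J` be the set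
for `z`.  The number of the pairs `(i, c)`, `i ∈ J`, `c ∈ C`, `{v, c} ∈ f i`, is congruent to the number
of the `c ∈ C` with `{v, c} ∈ z`, so it is odd; so for some `i ∈ J` the number of `c ∈ C` with
`{v, c} ∈ f i` is odd. -/
def StmtLC : Prop := ∀ (V : Type) [Fintype V] (G : SimpleGraph V) (m : ℕ)
  (f : Fin m → Finset (Finset V)) (v x y : V) (C : Finset V), MacFam G m f → G.Adj v x →
  G.Adj v y → x ∈ C → y ∉ C → (del G v).Reachable x y →
  ∃ i, Odd (C.filter (fun c => {v, c} ∈ f i)).card

/-- PACKET LD (finite combinatorics: a connected graph of maximum degree 2 on 5 vertices is a path or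
a 5-cycle).  `L` is the graph, `A` a larger relation in which any two vertices of `L`-degree at most 1
are related.
Proof.  Let `x₀` be a vertex of `L`-degree at most 1 if there is one, otherwise any vertex.
Construct `x₀, x₁, .., x₄`: given `x₀, .., x_k`, `k < 4`, different, consecutive ones adjacent in `L`, such
that `x₁, .., x_{k-1}` have no `L`-neighbours outside the list (they have already two in it).  By
connectedness some vertex of the list has an `L`-neighbour outside; it is `x_k`, or `x₀` and then all
vertices have degree 2 and (reversing the list) we may also continue: if `x₀` has a neighbour outside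
and `x_k` has not, then `x_k` has two neighbours in the list, `x_{k-1}` and `x₀`, (the others are
saturated), so `x₀` has the neighbours `x₁`, `x_k` and one outside, three, or (`k = 1`) `x₁` has degree
1, contradiction to the choice of `x₀`; (`k = 0` is trivial).  So we get all 5 vertices.  If `x₄` and `x₀`
have `L`-degree at most 1, they are related by `A`.  Otherwise `x₄` has (or `x₀` has, and then all have)
degree 2; the second neighbour of `x₄` is `x₀`, as `x₁, x₂, x₃` are saturated.  (Or: a finite check on
`Fin 5` by `decide`.) -/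
def StmtLD : Prop := ∀ (V : Type) (N : Finset V) (L A : V → V → Prop), N.card = 5 →
  (∀ x y, L x y → L y x) → (∀ x y, A x y → A y x) → (∀ x, ¬ L x x) →
  (∀ x ∈ N, (N.filter (fun y => L x y)).card ≤ 2) →
  (∀ C ⊆ N, C.Nonempty → C ≠ N → ∃ x ∈ C, ∃ y ∈ N \ C, L x y) →
  (∀ x ∈ N, ∀ y ∈ N, L x y → A x y) →
  (∀ x ∈ N, ∀ y ∈ N, x ≠ y → (N.filter (fun z => L x z)).card ≤ 1 →
    (N.filter (fun z => L y z)).card ≤ 1 → A x y) →
  ∃ w : Fin 5 → V, Function.Injective w ∧ (∀ i, w i ∈ N) ∧ ∀ i, A (w i) (w (i + 1))

/-- PACKET LK (the link of a vertex of degree 5 can be completed; may assume StmtSU, StmtSD, StmtLA,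
StmtLB, StmtLC, StmtLD).
Proof.  Let `N` be the set of the 5 neighbours of `v`.  Among the graphs `G' ≥ G`, all of whose
additional edges are inside `N`, with `Mac G'`, take one with the largest number of edges.
`G'.Adj v y ↔ G.Adj v y`, and `del G v ≤ del G' v`.  Let `f` be a MacLane family of `G'`.
(1) If `{v, x}, {v, y} ∈ f i`, `x ≠ y`, then `G'.Adj x y` (LA and maximality).  (2) If `x ≠ y` in `N` are both
in at most one member (`{v, x} ∈ f i` for at most one `i`, the same for `y`), then `G'.Adj x y` (LB).
(3) Every `f i` contains 0 or 2 of the edges at `v`: it contains an even number of them, and not 4 or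
more, because otherwise `v` and four neighbours would be pairwise adjacent in `G'` by (1),
contradicting SD (3).  Let `L x y := x ≠ y ∧ ∃ i, {v, x} ∈ f i ∧ {v, y} ∈ f i`, `A = G'.Adj`.  (4) The degree
of `x` in `L` is at most the number of the members with `{v, x} ∈ f i`, so at most 2.  (5) `L` is
connected in the sense of LD: `C`, `x ∈ C`, `y ∈ N \ C`; LC gives `i` such that `f i` has an odd number of
edges `{v, c}`, `c ∈ C`; by (3) exactly one, and exactly one `{v, c'}` with `c' ∈ N \ C`.  (6) If `x` has
at most one `L`-neighbour, then it is in at most one member: otherwise there are `i ≠ j` with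
`{v, x} ∈ f i, f j`, and by (3) `{v, y} ∈ f i`, `{v, y'} ∈ f j`, `y, y' ≠ x`, `y = y'` by assumption; then `y` is
in the members `i, j` and in no other, so `L` does not connect `C = {x, y}` to the rest, a
contradiction to (5) (`#N = 5`).  So LD applies (with (2), (6)). -/
def StmtLK : Prop := ∀ (V : Type) [Fintype V] (G : SimpleGraph V) (v : V), Mac G →
  dR G univ v = 5 → (∀ x y, G.Adj v x → G.Adj v y → (del G v).Reachable x y) →
  ∃ (w : Fin 5 → V) (G' : SimpleGraph V), Function.Injective w ∧
    (∀ y, G.Adj v y ↔ ∃ i, w i = y) ∧ G ≤ G' ∧ Mac G' ∧ (∀ i, G'.Adj (w i) (w (i + 1))) ∧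
    (∀ y, G'.Adj v y ↔ G.Adj v y)

/-! ### quotients at a vertex, five-colourability -/

/-- PACKET QY (quotients at a vertex; may assume StmtSU, StmtCT).
Proof.  (1) Contract the edge `{x, v}` (`v ↦ x`), then the edge `{x, y}` of the result (`y ↦ x`): the
result is a MacLane graph by CT (twice), and contains `del (QG G (cr x y)) v`: an edge `{r a, r b}`
(`r = cr x y`, `a, b ≠ v`) is the image of the edge `{a, b}` of `G`.  SU.  (2) A vertex which is not
isolated in `del (QG G (cr x y)) v` is not isolated in `G` (it is `x` or fixed by `r` with no other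
preimage), and it is not `y` and not `v`; `x, y, v` are not isolated in `G`.  (3) as (2).  (4) `QG G (cr p q)
≤ QG (adE G p q) (cr p q)`, CT and SU.  (5) `v` is isolated in `del G v`, `v` is not isolated in `G`. -/
def StmtQY : Prop :=
  (∀ (V : Type) [Fintype V] (G : SimpleGraph V) (v x y : V), Mac G → x ≠ y → G.Adj v x →
    G.Adj v y → Mac (del (QG G (cr x y)) v) ∧ ni (del (QG G (cr x y)) v) < ni G) ∧
  (∀ (V : Type) [Fintype V] (G : SimpleGraph V) (p q : V), p ≠ q → (∃ a, G.Adj p a) →
    (∃ a, G.Adj q a) → ni (QG G (cr p q)) < ni G) ∧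
  (∀ (V : Type) [Fintype V] (G : SimpleGraph V) (p q : V), p ≠ q → Mac (adE G p q) →
    Mac (QG G (cr p q))) ∧
  (∀ (V : Type) [Fintype V] (G : SimpleGraph V) (v : V), (∃ a, G.Adj v a) → ni (del G v) < ni G)

/-- PACKET FC (MacLane graphs are 5-colourable; may assume StmtSU, StmtSD, StmtQY).
Proof.  Induction on `ni G`.  If `G` has no edge, any colouring.  Otherwise SD (2): `x` with
`1 ≤ dR G univ x ≤ 5`.  If `dR ≤ 4`, take a proper colouring of `del G x` (QY, SU) and a colour for `x`
different from the colours of its at most 4 neighbours.  If `dR = 5`: not all pairs of neighbours are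
adjacent (otherwise `x` and four of them are pairwise adjacent, SD (3)), so there are neighbours
`y ≠ z` which are not adjacent.  `H = del (QG G (cr y z)) x` has a proper colouring `h` (QY).
`f = h ∘ cr y z`, with a new colour at `x`: for an edge `{a, b}` of `G`, `a, b ≠ x`, the images are
different (`y, z` are not adjacent) and adjacent in `H`; and `f y = f z`, so the neighbours of `x` have
at most 4 colours. -/
def StmtFC : Prop := ∀ (V : Type) [Fintype V] (G : SimpleGraph V), Mac G → ∃ f, Proper G f

/-- PACKET XT (a colouring with `f x = f y`; may assume StmtFC, StmtQY).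
Proof.  As in the last step of FC: a proper colouring `h` of `del (QG G (cr x y)) v`,
`f = h ∘ cr x y`, with a new colour at `v`. -/
def StmtXT : Prop := ∀ (V : Type) [Fintype V] (G : SimpleGraph V) (v x y : V), Mac G →
  dR G univ v ≤ 5 → x ≠ y → G.Adj v x → G.Adj v y → ¬ G.Adj x y → ∃ f, Proper G f ∧ f x = f y

/-! ### the vertex of degree 5 -/

/-- PACKET T1 (may assume StmtKB).  `w 0, .., w 4` are the neighbours of `v`.
Proof.  Let `a = f (w 0) = f (w 1)`, `b, c, d` the colours of `w 2, w 3, w 4`.  If `a, b, c, d` are not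
different, `g = f` (e.g. if `f (w 2) = f (w 4)` take `j = 2`, `k = 4`; if `f (w 2) = a` take `j = 0`,
`k = 2`).  Otherwise `f v` is the fifth colour, so `v` is in no chain of the colours `a, b, c, d`.  If `w 4`
is not in the `b, d`-chain of `w 2`, `g = sw G f b d (w 2)`: `g (w 2) = d = g (w 4)`.  Otherwise let `A` be
this chain.  If `w 0` is not in the `c, a`-chain of `w 3`, `g = sw G f c a (w 3)`: `g (w 3) = a = g (w 0)`
(`w 0` is not changed).  Otherwise let `B` be this chain.  `A` and `B` are disjoint, connected (KB (5)),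
`w 2, w 4 ∈ A`, `w 3, w 0 ∈ B`: contradiction to `NoX` for `i = 2`. -/
def StmtT1 : Prop := ∀ (V : Type) [Fintype V] (G : SimpleGraph V) (v : V) (w : Fin 5 → V),
  Function.Injective w → (∀ i, G.Adj v (w i)) → NoX G v w → ∀ f : V → Fin 5, Proper G f →
  f (w 0) = f (w 1) → ∃ g, KEq G f g ∧ ∃ j k : Fin 5, j ≠ k ∧ ¬ (j = 0 ∧ k = 1) ∧
    ¬ (j = 1 ∧ k = 0) ∧ g (w j) = g (w k)

/-- PACKET T2 (may assume StmtKB).
Proof.  Let `a = f (w 0) = f (w 2)`, `b = f (w 1)`, `c = f (w 3)`, `d = f (w 4)`, all different, `f v` is the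
fifth colour.  (1) If `w 3` is not in the `b, c`-chain `A` of `w 1`, `g = sw G f b c (w 1)`:
`g (w 1) = c = g (w 3)`.  Otherwise, if `w 4` is not in the `a, d`-chain `B` of `w 2`,
`g = sw G f a d (w 2)`: `g (w 2) = d = g (w 4)`.  Otherwise `w 1, w 3 ∈ A`, `w 2, w 4 ∈ B`, contradiction
to `NoX` for `i = 1`.  (2) If `w 4` is not in the `b, d`-chain `A` of `w 1`, `g = sw G f b d (w 1)`.
Otherwise, if `w 3` is not in the `a, c`-chain `B` of `w 0`, `g = sw G f a c (w 0)`.  Otherwise
`w 3, w 0 ∈ B`, `w 4, w 1 ∈ A`: contradiction to `NoX` for `i = 3`. -/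
def StmtT2 : Prop := ∀ (V : Type) [Fintype V] (G : SimpleGraph V) (v : V) (w : Fin 5 → V),
  Function.Injective w → (∀ i, G.Adj v (w i)) → NoX G v w → ∀ f : V → Fin 5, Proper G f →
  f (w 0) = f (w 2) → f (w 0) ≠ f (w 1) → f (w 0) ≠ f (w 3) → f (w 0) ≠ f (w 4) →
  f (w 1) ≠ f (w 3) → f (w 1) ≠ f (w 4) → f (w 3) ≠ f (w 4) →
  (∃ g, KEq G f g ∧ (g (w 1) = g (w 3) ∨ g (w 2) = g (w 4))) ∧
  (∃ g, KEq G f g ∧ (g (w 1) = g (w 4) ∨ g (w 0) = g (w 3)))

/-- PACKET T3 (may assume StmtKB).  Here `w 0, .., w 4` is a cycle of `G`.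
Proof.  `a = f (w 0) = f (w 2)`, `b = f (w 1) = f (w 3)`, `c = f (w 4)`, all different, `e = f v`, and `d` the
fifth colour.  If `w 2` is not in the `a, d`-chain `A` of `w 0`, `g = sw G f a d (w 0)`: colours
`d, b, a, b, c`.  Otherwise `v ∉ A`.  Let `f₁` be `f` with the colour of `v` changed to `d` (KB (6): the
neighbours of `v` have the colours `a, b, c`).  If `w 3` is not in the `b, e`-chain `B` of `w 1` for `f₁`,
`g = sw G f₁ b e (w 1)`: colours `a, e, a, b, c`.  Otherwise `A` and `B` are disjoint connected sets (the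
colours of `f` on `A` are `a, d`, on `B` they are `b, e`, `v ∉ A, B`), `w 0, w 2 ∈ A`, `w 1, w 3 ∈ B`:
contradiction to `NoX` for `i = 0`. -/
def StmtT3 : Prop := ∀ (V : Type) [Fintype V] (G : SimpleGraph V) (v : V) (w : Fin 5 → V),
  Function.Injective w → (∀ y, G.Adj v y ↔ ∃ i, w i = y) → (∀ i, G.Adj (w i) (w (i + 1))) →
  NoX G v w → ∀ f : V → Fin 5, Proper G f → f (w 0) = f (w 2) → f (w 1) = f (w 3) →
  ∃ g, KEq G f g ∧
    ((g (w 0) ≠ g (w 2) ∧ g (w 1) = g (w 3) ∧ g (w 0) ≠ g (w 3) ∧ g (w 1) ≠ g (w 4) ∧
      g (w 2) ≠ g (w 4)) ∨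
     (g (w 0) = g (w 2) ∧ g (w 1) ≠ g (w 3) ∧ g (w 0) ≠ g (w 3) ∧ g (w 1) ≠ g (w 4) ∧
      g (w 2) ≠ g (w 4)))

/-- PACKET T4 (the link is a 5-cycle; may assume StmtKB, StmtT2, StmtT3).
Proof.  For a proper colouring `f` let `E f = {i | ∃ g, KEq G f g ∧ g (w i) = g (w (i + 2))}`.  Claim:
`#(E f) ≥ 3`.  The five vertices `w i` have colours different from `f v`, so two of them have the same
colour, they are not adjacent, so `f (w i) = f (w (i + 2))` for some `i`.  There is `f' ~ f` and `i`
such that `{w i, w (i + 2)}` is the only pair with equal colours: if `f` has two such pairs they are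
disjoint (`w (i + 2)` and `w (i + 4) = w (i - 1)`: `w i = w (i + 4)` would be adjacent with the same
colour), so of the form `i, i + 1`: T3 for `w (i + ·)`.  T2 for `w (i + ·)` and `f'`:
`i ∈ E f`, and `i + 1 ∈ E f` or `i + 2 ∈ E f`, and `i + 4 ∈ E f` or `i + 3 ∈ E f`.  (`NoX` and the other
hypotheses are invariant under the rotation of `w`.)  Now let `f, g` be proper.  `E f` and `E g` have
at least 3 elements, so they have a common element `j`: `f ~ f₁`, `g ~ g₁`, `f₁ (w j) = f₁ (w (j + 2))`,
`g₁ (w j) = g₁ (w (j + 2))`; the vertices are not adjacent as `f₁` is proper; the hypothesis gives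
`KEq G f₁ g₁`, so `f ~ g`. -/
def StmtT4 : Prop := ∀ (V : Type) [Fintype V] (G : SimpleGraph V) (v : V) (w : Fin 5 → V),
  Function.Injective w → (∀ y, G.Adj v y ↔ ∃ i, w i = y) → (∀ i, G.Adj (w i) (w (i + 1))) →
  NoX G v w →
  (∀ i, ¬ G.Adj (w i) (w (i + 2)) → ∀ f g : V → Fin 5, Proper G f → Proper G g →
    f (w i) = f (w (i + 2)) → g (w i) = g (w (i + 2)) → KEq G f g) → AllEq G

/-- PACKET T5 (the link is not complete; may assume StmtKB, StmtT1).
Proof.  If no proper colouring has `f (w 0) = f (w 1)`, the hypothesis `H1` is enough.  Otherwise let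
`f` be one; T1 gives `g ~ f` and `j ≠ k` with `g (w j) = g (w k)`, `{j, k} ≠ {0, 1}`; `w j, w k` are not
adjacent as `g` is proper (`w j ≠ w k`).  By `H3` there is `h` proper with `h (w j) = h (w k)`,
`h (w 0) ≠ h (w 1)` and `KEq G g h`.  So every colouring with `f (w 0) = f (w 1)` is equivalent to this
`f` (`H2`), to `h`, and to every colouring with different colours at `w 0`, `w 1` (`H1`). -/
def StmtT5 : Prop := ∀ (V : Type) [Fintype V] (G : SimpleGraph V) (v : V) (w : Fin 5 → V),
  Function.Injective w → (∀ i, G.Adj v (w i)) → NoX G v w →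
  (∀ f g : V → Fin 5, Proper G f → Proper G g → f (w 0) ≠ f (w 1) → g (w 0) ≠ g (w 1) →
    KEq G f g) →
  (∀ f g : V → Fin 5, Proper G f → Proper G g → f (w 0) = f (w 1) → g (w 0) = g (w 1) →
    KEq G f g) →
  (∀ j k : Fin 5, j ≠ k → ¬ (j = 0 ∧ k = 1) → ¬ (j = 1 ∧ k = 0) → ¬ G.Adj (w j) (w k) →
    (∀ f g : V → Fin 5, Proper G f → Proper G g → f (w j) = f (w k) → g (w j) = g (w k) →
      KEq G f g) ∧ ∃ h : V → Fin 5, Proper G h ∧ h (w j) = h (w k) ∧ h (w 0) ≠ h (w 1)) →
  AllEq G

/-! ### the main theorem -/

/-- MAIN THEOREM (Meyniel's theorem for MacLane graphs; assembly, helper30). -/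
def StmtMEY : Prop := ∀ (V : Type) [Fintype V] (G : SimpleGraph V), Mac G → AllEq G

/-- PACKET BR (bridge to triangulated surfaces).  `T` is a triangulation, `R` a set of vertices such
that all even sets of edges inside `R` are boundaries of sets of triangles inside `R`.
Proof.  Family indexed by the triangles `t` inside `R` (`Fin m` with `m = #(trW T R)`,
`Finset.equivFin`): `f t = (ed T).filter (· ⊆ t)`.  The edges of `gr (edW T R)` are the elements of
`edW T R`.  `f t` is even (a vertex of `t` is in exactly two of the three edges of `t`; by `card`,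
every pair in `t` is an edge).  An edge is in exactly two triangles of `T` (`two`), so in at most two
inside `R`.  If `z ⊆ edW T R` is even, `bd T D = z` with `D ⊆ trW T R`: `J` = the indices of `D`; `e ∈ z` iff
`e` is in an odd number of `t ∈ D`; for an edge `e`, `e ∈ f t` iff `e ⊆ t`; if `e` is not an edge of `T` it is
in no `f t` and not in `z`. -/
def StmtBR : Prop := ∀ (V : Type) [Fintype V] (T : Finset (Finset V)),
  Pool.Agent.Helper94.KC.Surf T → ∀ R : Finset V,
  (∀ z ⊆ (Pool.Agent.Helper94.KC.ed T).filter (fun e => e ⊆ R), Even2 z →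
    ∃ D ⊆ T.filter (fun t => t ⊆ R), Pool.Agent.Helper94.KC.bd T D = z) →
  Mac (rs (Pool.Agent.Helper94.KC.sk T) (R : Set V))

end Pool.Agent.Helper30.ML
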