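import Pool.Agent.Helper30.ML.Main
import Pool.Agent.Helper86.KC.UN
import Pool.Agent.Helper15.KC.KL
import Pool.Agent.Helper12.ML.KP
import Pool.Agent.Helper18.ML.T1
import Pool.Agent.Helper24.ML.BR
import Pool.Agent.Helper28.ML.RC
import Pool.Agent.Helper28.ML.T3
import Pool.Agent.Helper36.ML.LC
import Pool.Agent.Helper36.ML.T5
import Pool.Agent.Helper39.ML.CT
import Pool.Agent.Helper39.ML.NX
import Pool.Agent.Helper45.ML.LK
import Pool.Agent.Helper47.ML.CV
import Pool.Agent.Helper49.ML.FC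
import Pool.Agent.Helper49.ML.LB
import Pool.Agent.Helper50.ML.KM
import Pool.Agent.Helper59.ML.T2
import Pool.Agent.Helper59.ML.XT
import Pool.Agent.Helper62.ML.QY
import Pool.Agent.Helper69.ML.KX
import Pool.Agent.Helper69.ML.SD
import Pool.Agent.Helper74.ML.RB
import Pool.Agent.Helper86.ML.T4
import Pool.Agent.Helper89.ML.KB
import Pool.Agent.Helper92.ML.LA
import Pool.Agent.Helper92.ML.SU
import Pool.Agent.Helper96.ML.D4
import Pool.Agent.Helper96.ML.LD

/-!
# Project ML: Meyniel's theorem for MacLane graphs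
-/

set_option autoImplicit false

namespace Pool.Agent.Helper30.ML

theorem un : Pool.Agent.Helper94.KC.StmtUN := Pool.Agent.Helper86.KC.un

theorem kl : Pool.Agent.Helper94.KC.StmtKL := Pool.Agent.Helper15.KC.kl un

theorem kb : StmtKB := Pool.Agent.Helper89.ML.pKB un

theorem d4 : StmtD4 := Pool.Agent.Helper96.ML.pD4

theorem su : StmtSU := Pool.Agent.Helper92.ML.pSU

theorem ct : StmtCT := Pool.Agent.Helper39.ML.pCT su

theorem sd : StmtSD := Pool.Agent.Helper69.ML.pSD Pool.Agent.Helper74.ML.pRB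
  Pool.Agent.Helper28.ML.pRC su

theorem qy : StmtQY := Pool.Agent.Helper62.ML.pQY su ct

theorem kp : StmtKP := Pool.Agent.Helper12.ML.pKP kl

theorem br : StmtBR := Pool.Agent.Helper24.ML.pBR

/-- Meyniel's theorem for MacLane graphs: all 5-colourings are Kempe equivalent -/
theorem meyniel : StmtMEY :=
  mey kb d4 (Pool.Agent.Helper47.ML.pCV un kb) kp (Pool.Agent.Helper69.ML.pKX d4 kp) su sd
    (Pool.Agent.Helper39.ML.pNX (Pool.Agent.Helper50.ML.pKM ct sd))
    (Pool.Agent.Helper45.ML.pLK sd Pool.Agent.Helper92.ML.pLA Pool.Agent.Helper49.ML.pLB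
      Pool.Agent.Helper36.ML.pLC Pool.Agent.Helper96.ML.pLD)
    qy (Pool.Agent.Helper59.ML.pXT (Pool.Agent.Helper49.ML.pFC su sd qy) qy)
    (Pool.Agent.Helper86.ML.pT4 kb (Pool.Agent.Helper59.ML.pT2 kb) (Pool.Agent.Helper28.ML.pT3 kb))
    (Pool.Agent.Helper36.ML.pT5 kb (Pool.Agent.Helper18.ML.pT1 kb))

end Pool.Agent.Helper30.ML
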