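import Pool.Agent.Helper30.ML.Goals

/-!
# Project ML: assembly of the main theorem
-/

set_option autoImplicit false

namespace Pool.Agent.Helper30.ML

open scoped Classical
open Finset
open Pool.Agent.Helper94.KC (Proper InChain KStep KEq AllEq dR QG Even2 StmtUN StmtKL)

theorem rs_mono {V : Type} {G G' : SimpleGraph V} (h : G ≤ G') (A : Set V) : rs G A ≤ rs G' A :=
  fun _ _ hab => ⟨h hab.1, hab.2⟩

theorem ConS.mono {V : Type} {G G' : SimpleGraph V} (h : G ≤ G') {A : Set V} (hA : ConS G A) :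
    ConS G' A := ⟨hA.1, fun u hu v hv => (hA.2 u hu v hv).mono (rs_mono h A)⟩

theorem NoX.mono {V : Type} {G G' : SimpleGraph V} (h : G ≤ G') {v : V} {w : Fin 5 → V}
    (hN : NoX G' v w) : NoX G v w := fun i A B h1 h2 h3 h4 h5 =>
  hN i A B h1 h2 h3 (h4.mono h) (h5.mono h)

theorem NoX.rot {V : Type} {G : SimpleGraph V} {v : V} {w : Fin 5 → V} (hN : NoX G v w)
    (k : Fin 5) : NoX G v (fun j => w (k + j)) := by
  intro i A B h1 h2 h3 h4 h5 h6 h7 h8 h9
  refine hN (k + i) A B h1 h2 h3 h4 h5 h6 ?_ ?_ ?_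
  · rw [add_assoc]; exact h7
  · rw [add_assoc]; exact h8
  · rw [add_assoc]; exact h9

theorem ni_pos {V : Type} [Fintype V] {G : SimpleGraph V} {a b : V} (h : G.Adj a b) : 0 < ni G :=
  Finset.card_pos.mpr ⟨a, Finset.mem_filter.mpr ⟨Finset.mem_univ _, b, h⟩⟩

theorem ni_mono {V : Type} [Fintype V] {G H : SimpleGraph V} (h : H ≤ G) : ni H ≤ ni G :=
  Finset.card_le_card (Finset.monotone_filter_right _ fun _ _ hx => hx.imp fun _ hy => h hy)

theorem ni_lt {V : Type} [Fintype V] {G H : SimpleGraph V} (h : H ≤ G) {a b : V} (hab : G.Adj a b)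
    (hH : ∀ y, ¬ H.Adj a y) : ni H < ni G := by
  apply Finset.card_lt_card
  refine ⟨Finset.monotone_filter_right _ fun _ _ hx => hx.imp fun _ hy => h hy, ?_⟩
  intro hs
  have := hs (Finset.mem_filter.mpr ⟨Finset.mem_univ a, b, hab⟩)
  obtain ⟨y, hy⟩ := (Finset.mem_filter.mp this).2
  exact hH y hy

theorem adE_le {V : Type} {G G' : SimpleGraph V} (h : G ≤ G') {x y : V} (hxy : G'.Adj x y) :
    adE G x y ≤ G' := by
  rintro a b (hab | ⟨-, ⟨rfl, rfl⟩ | ⟨rfl, rfl⟩⟩)
  · exact h hab
  · exact hxy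
  · exact hxy.symm

theorem le_adE {V : Type} (G : SimpleGraph V) (x y : V) : G ≤ adE G x y :=
  fun _ _ h => Or.inl h

theorem ni_adE {V : Type} [Fintype V] {G : SimpleGraph V} {x y a b : V} (hx : G.Adj x a)
    (hy : G.Adj y b) : ni (adE G x y) = ni G := by
  refine le_antisymm (Finset.card_le_card ?_) (ni_mono (le_adE G x y))
  intro u hu
  obtain ⟨c, hc⟩ := (Finset.mem_filter.mp hu).2
  refine Finset.mem_filter.mpr ⟨Finset.mem_univ _, ?_⟩
  rcases hc with hc | ⟨-, ⟨rfl, rfl⟩ | ⟨rfl, rfl⟩⟩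
  · exact ⟨c, hc⟩
  · exact ⟨a, hx⟩
  · exact ⟨b, hy⟩

theorem eG_adE {V : Type} [Fintype V] {G : SimpleGraph V} {x y : V} (hn : ¬ G.Adj x y)
    (hxy : x ≠ y) : (eG G).card < (eG (adE G x y)).card := by
  apply Finset.card_lt_card
  constructor
  · intro e he
    obtain ⟨u, v, h, rfl⟩ := (Finset.mem_filter.mp he).2
    exact Finset.mem_filter.mpr ⟨Finset.mem_univ _, u, v, Or.inl h, rfl⟩
  · intro hs
    have h1 : ({x, y} : Finset V) ∈ eG (adE G x y) :=
      Finset.mem_filter.mpr ⟨Finset.mem_univ _, x, y, Or.inr ⟨hxy, Or.inl ⟨rfl, rfl⟩⟩, rfl⟩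
    obtain ⟨u, v, h, he⟩ := (Finset.mem_filter.mp (hs h1)).2
    have hx : x ∈ ({u, v} : Finset V) := he ▸ Finset.mem_insert_self _ _
    have hy : y ∈ ({u, v} : Finset V) := he ▸ Finset.mem_insert_of_mem (Finset.mem_singleton_self _)
    rw [Finset.mem_insert, Finset.mem_singleton] at hx hy
    rcases hx with rfl | rfl
    · rcases hy with rfl | rfl
      · exact hxy rfl
      · exact hn h
    · rcases hy with rfl | rfl
      · exact hn h.symm
      · exact hxy rfl

theorem eG_le {V : Type} [Fintype V] (G : SimpleGraph V) :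
    (eG G).card ≤ (univ : Finset (Finset V)).card := Finset.card_le_card (Finset.subset_univ _)

theorem allEq_bot (KB : StmtKB) {V : Type} [Fintype V] {G : SimpleGraph V}
    (h : ∀ a b, ¬ G.Adj a b) : AllEq G := by
  intro f g _ _
  have key : ∀ S : Finset V, KEq G f (fun v => if v ∈ S then g v else f v) := by
    intro S
    induction S using Finset.induction_on with
    | empty =>
      have h0 : (fun v => if v ∈ (∅ : Finset V) then g v else f v) = f := by funext v; simp
      rw [h0]
      exact Relation.ReflTransGen.refl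
    | insert a S ha ih =>
      refine ih.trans ?_
      have h1 := KB.2.2.2.2.2 V G (fun v => if v ∈ S then g v else f v) (g a) a
        (fun u v huv => absurd huv (h u v)) (fun y hy => absurd hy (h a y))
      have h2 : Function.update (fun v => if v ∈ S then g v else f v) a (g a) =
          fun v => if v ∈ insert a S then g v else f v := by
        funext v
        by_cases hv : v = a
        · subst hv; simp
        · simp [hv]
      rwa [h2] at h1
  simpa using key univ

theorem mey (KB : StmtKB) (D4 : StmtD4) (CV : StmtCV) (KP : StmtKP) (KX : StmtKX) (SU : StmtSU)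
    (SD : StmtSD) (NX : StmtNX) (LK : StmtLK) (QY : StmtQY) (XT : StmtXT) (T4 : StmtT4)
    (T5 : StmtT5) : StmtMEY := by
  intro V _
  have main : ∀ n k : ℕ, ∀ G : SimpleGraph V, ni G = n →
      (univ : Finset (Finset V)).card - (eG G).card = k → Mac G → AllEq G := by
    intro n
    induction n using Nat.strong_induction_on with
    | _ n IHn =>
    intro k
    induction k using Nat.strong_induction_on with
    | _ k IHk =>
    intro G hn hk hM
    have IH1 : ∀ H : SimpleGraph V, ni H < ni G → Mac H → AllEq H := fun H hH hMH =>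
      IHn (ni H) (hn ▸ hH) _ H rfl rfl hMH
    by_cases hE : ∃ a b, G.Adj a b
    swap
    · exact allEq_bot KB (fun a b hab => hE ⟨a, b, hab⟩)
    obtain ⟨v, hv1, hv5⟩ := SD.2.1 V G hM hE
    have hva : ∃ a, G.Adj v a := by
      obtain ⟨a, ha⟩ := Finset.card_pos.mp hv1
      exact ⟨a, (Finset.mem_filter.mp ha).2⟩
    have hdel : del G v ≤ G := fun _ _ h => h.1
    by_cases hv4 : dR G univ v ≤ 4
    · exact D4 V G v hv4 (IH1 _ (QY.2.2.2 V G v hva) (SU V G _ hdel hM))
    have hv : dR G univ v = 5 := by omega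
    by_cases hR : ∀ x y, G.Adj v x → G.Adj v y → (del G v).Reachable x y
    swap
    · push Not at hR
      obtain ⟨x, y, hx, hy, hxy⟩ := hR
      refine CV V G v {u | (del G v).Reachable x u ∧ u ≠ v} (fun h => h.2 rfl) ?_ ?_ ?_
      · intro a ha b hb hab
        by_contra hbv
        exact hb ⟨ha.1.trans (SimpleGraph.Adj.reachable ⟨hab, ha.2, hbv⟩), hbv⟩
      · refine IH1 _ (ni_lt (fun _ _ h => h.1) hy.symm ?_) (SU V G _ (fun _ _ h => h.1) hM)
        rintro z ⟨-, h | h, -⟩
        · exact hy.ne h.symm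
        · exact hxy h.1
      · refine IH1 _ (ni_lt (fun _ _ h => h.1) hx.symm ?_) (SU V G _ (fun _ _ h => h.1) hM)
        rintro z ⟨-, h, -⟩
        exact h ⟨SimpleGraph.Reachable.refl x, hx.ne.symm⟩
    obtain ⟨w, G', hwi, hwv, hGG', hM', hcyc, hvG'⟩ := LK V G v hM hv hR
    have hNX : NoX G v w :=
      (NX V G' v w hM' hwi (fun i => hGG' ((hwv _).mpr ⟨i, rfl⟩)) hcyc).mono hGG'
    have hvw : ∀ i, G.Adj v (w i) := fun i => (hwv _).mpr ⟨i, rfl⟩
    have hK : ∀ x y, x ≠ y → G.Adj v x → G.Adj v y → ∀ f g : V → Fin 5, Proper G f →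
        Proper G g → f x = f y → g x = g y → KEq G f g := fun x y hxy hx hy =>
      KX V G v x y hv5 hxy hx hy
        (IH1 _ (QY.1 V G v x y hM hxy hx hy).2 (QY.1 V G v x y hM hxy hx hy).1)
    by_cases hC : ∀ i, G.Adj (w i) (w (i + 1))
    · refine T4 V G v w hwi hwv hC hNX ?_
      intro i _
      exact hK _ _ (fun h => by
        have := hwi h
        revert this
        fin_cases i <;> decide) (hvw _) (hvw _)
    · push Not at hC
      obtain ⟨i, hi⟩ := hC
      have hi0 : ¬ G.Adj (w (i + 0)) (w (i + 1)) := by rwa [add_zero]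
      have hne : w (i + 0) ≠ w (i + 1) := fun h => by
        have := hwi h
        revert this
        fin_cases i <;> decide
      have hle : adE G (w (i + 0)) (w (i + 1)) ≤ G' := adE_le hGG' (by
        rw [add_zero]; exact hcyc i)
      have hM1 : Mac (adE G (w (i + 0)) (w (i + 1))) := SU V G' _ hle hM'
      refine T5 V G v (fun j => w (i + j)) (fun a b h => add_left_cancel (hwi h))
        (fun j => hvw _) (hNX.rot i) ?_ ?_ ?_
      · intro f g hf hg hf1 hg1
        have hP : ∀ f : V → Fin 5, Proper G f → f (w (i + 0)) ≠ f (w (i + 1)) →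
            Proper (adE G (w (i + 0)) (w (i + 1))) f := by
          rintro f hf hf1 a b (hab | ⟨-, ⟨rfl, rfl⟩ | ⟨rfl, rfl⟩⟩)
          · exact hf a b hab
          · exact hf1
          · exact hf1.symm
        have hlt := eG_adE hi0 hne
        have hle2 := eG_le (adE G (w (i + 0)) (w (i + 1)))
        have hAll := IHk _ (by omega) (adE G (w (i + 0)) (w (i + 1)))
          (by rw [ni_adE (hvw _).symm (hvw _).symm, hn]) rfl hM1
        exact KB.2.2.2.1 V G _ f g (le_adE _ _ _) (hAll f g (hP f hf hf1) (hP g hg hg1))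
      · exact KP V G _ _ (IH1 _ (QY.2.1 V G _ _ hne ⟨v, (hvw _).symm⟩ ⟨v, (hvw _).symm⟩)
          (QY.2.2.1 V G _ _ hne hM1))
      · intro j k hjk h01 h10 hadj
        have hjk' : w (i + j) ≠ w (i + k) := fun h => hjk (add_left_cancel (hwi h))
        refine ⟨hK _ _ hjk' (hvw _) (hvw _), ?_⟩
        have hd : dR (adE G (w (i + 0)) (w (i + 1))) univ v ≤ 5 := by
          have : (univ.filter (fun y => (adE G (w (i + 0)) (w (i + 1))).Adj v y)) ⊆
              univ.filter (fun y => G.Adj v y) := by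
            intro y hy
            have hy2 := (Finset.mem_filter.mp hy).2
            refine Finset.mem_filter.mpr ⟨Finset.mem_univ _, ?_⟩
            rcases hy2 with h | ⟨-, ⟨h, -⟩ | ⟨h, -⟩⟩
            · exact h
            · exact absurd h (hvw _).ne
            · exact absurd h (hvw _).ne
          exact (Finset.card_le_card this).trans hv5
        have hnadj : ¬ (adE G (w (i + 0)) (w (i + 1))).Adj (w (i + j)) (w (i + k)) := by
          rintro (h | ⟨-, ⟨h1, h2⟩ | ⟨h1, h2⟩⟩)
          · exact hadj h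
          · exact h01 ⟨add_left_cancel (hwi h1), add_left_cancel (hwi h2)⟩
          · exact h10 ⟨add_left_cancel (hwi h1), add_left_cancel (hwi h2)⟩
        obtain ⟨h, hh1, hh2⟩ := XT V _ v _ _ hM1 hd hjk' (Or.inl (hvw _)) (Or.inl (hvw _)) hnadj
        exact ⟨h, fun a b hab => hh1 a b (Or.inl hab), hh2,
          hh1 _ _ (Or.inr ⟨hne, Or.inl ⟨rfl, rfl⟩⟩)⟩
  intro G hM
  exact main _ _ G rfl rfl hM

end Pool.Agent.Helper30.ML
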